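import Mathlib
import Pool.Agent.Lib.helper7.K33

set_option autoImplicit false

namespace Pool.Agent.H.MP_6f60ef_co

open Set Pool.Agent.Lib.helper7.K33

def ext5 (u : Fin 4 → ℝ) : Fin 5 → ℝ := ![u 0, u 1, u 2, u 3, -(u 0 + u 1 + u 2 + u 3)]

noncomputable def ps (u : Fin 4 → ℝ) (i : Fin 5) : ℝ := max (ext5 u i) 0

theorem ext5_neg (u : Fin 4 → ℝ) (i : Fin 5) : ext5 (-u) i = -ext5 u i := by
  fin_cases i <;> simp [ext5]
  ring

theorem ps_cont (i : Fin 5) : Continuous fun u => ps u i := by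
  fin_cases i <;> simp [ps, ext5] <;> fun_prop

theorem ps_sub (u : Fin 4 → ℝ) (i : Fin 5) : ps u i - ps (-u) i = ext5 u i := by
  simp only [ps, ext5_neg]
  rcases le_total (ext5 u i) 0 with h | h
  · rw [max_eq_right h, max_eq_left (by linarith)]; ring
  · rw [max_eq_left h, max_eq_right (by linarith)]; ring

theorem ps_dis (u : Fin 4 → ℝ) (i : Fin 5) : ps u i = 0 ∨ ps (-u) i = 0 := by
  simp only [ps, ext5_neg]
  rcases le_total (ext5 u i) 0 with h | h
  · left; exact max_eq_right h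
  · right; exact max_eq_right (by linarith)

def NoTri (a : Fin 5 → Bool) : Prop :=
  ∀ i j k : Fin 5, i < j → j < k → a i = false ∨ a j = false ∨ a k = false

instance (a : Fin 5 → Bool) : Decidable (NoTri a) := by unfold NoTri; infer_instance

theorem tri1 : ∀ a b : Fin 5 → Bool, (∀ i, a i = false ∨ b i = false) → NoTri a ∨ NoTri b := by
  decide +kernel

theorem tri2 : ∀ a b : Fin 5 → Bool, (∀ i, a i = false ∨ b i = false) → NoTri a → NoTri b →
    ∃ i j k l : Fin 5, (i < j ∧ k < l ∧ i ≠ k ∧ i ≠ l ∧ j ≠ k ∧ j ≠ l) ∧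
      (∀ m, m ≠ i → m ≠ j → a m = false) ∧ ∀ m, m ≠ k → m ≠ l → b m = false := by
  decide +kernel

noncomputable def DD (x : Fin 5 → ℝ) : ℝ :=
  ∑ i, ∑ j, ∑ k, if i < j ∧ j < k then x i * x j * x k else 0

theorem DD_iff (x : Fin 5 → ℝ) (hx : ∀ i, 0 ≤ x i) :
    DD x = 0 ↔ NoTri fun i => decide (x i ≠ 0) := by
  have n3 : ∀ i j k : Fin 5, 0 ≤ (if i < j ∧ j < k then x i * x j * x k else 0) := by
    intro i j k
    split_ifs
    · exact mul_nonneg (mul_nonneg (hx _) (hx _)) (hx _)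
    · exact le_rfl
  unfold DD
  rw [Finset.sum_eq_zero_iff_of_nonneg
    (fun i _ => Finset.sum_nonneg fun j _ => Finset.sum_nonneg fun k _ => n3 i j k)]
  constructor
  · intro h i j k h1 h2
    have a := h i (Finset.mem_univ _)
    rw [Finset.sum_eq_zero_iff_of_nonneg (fun j _ => Finset.sum_nonneg fun k _ => n3 i j k)] at a
    have b := a j (Finset.mem_univ _)
    rw [Finset.sum_eq_zero_iff_of_nonneg (fun k _ => n3 i j k)] at b
    have c := b k (Finset.mem_univ _)
    rw [if_pos ⟨h1, h2⟩] at c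
    simpa [or_assoc] using c
  · intro h i _
    refine Finset.sum_eq_zero fun j _ => Finset.sum_eq_zero fun k _ => ?_
    split_ifs with c
    · have := h i j k c.1 c.2
      simpa [or_assoc] using this
    · rfl

/-- van Kampen - Flores for the complete graph on five vertices. -/
theorem cross5 (Γ : Fin 5 → Fin 5 → unitInterval → ℝ × ℝ) (A : Fin 5 → ℝ × ℝ)
    (hc : ∀ i j, i < j → Continuous (Γ i j)) (h0 : ∀ i j, i < j → Γ i j 0 = A i)
    (h1 : ∀ i j, i < j → Γ i j 1 = A j) :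
    ∃ i j k l s t, (i < j ∧ k < l ∧ i ≠ k ∧ i ≠ l ∧ j ≠ k ∧ j ≠ l) ∧ Γ i j s = Γ k l t := by
  set Φ : (Fin 5 → ℝ) → ℝ × ℝ := fun x =>
    ∑ i, ∑ j, (if i < j then cone (Γ i j) (x i, x j) - x i • A i - x j • A j else 0) +
      ∑ i, x i • A i with hΦ
  have cΦ : Continuous Φ := by
    refine Continuous.add ?_ ?_
    · refine continuous_finsetSum _ fun i _ => continuous_finsetSum _ fun j _ => ?_
      split_ifs with h
      · exact (((cone_cont _ (hc i j h)).comp
          ((continuous_apply i).prodMk (continuous_apply j))).sub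
          ((continuous_apply i).smul continuous_const)).sub
          ((continuous_apply j).smul continuous_const)
      · exact continuous_const
    · exact continuous_finsetSum _ fun i _ => (continuous_apply i).smul continuous_const
  have cD : Continuous DD := by
    unfold DD
    refine continuous_finsetSum _ fun i _ => continuous_finsetSum _ fun j _ =>
      continuous_finsetSum _ fun k _ => ?_
    split_ifs
    · fun_prop
    · exact continuous_const
  have cp : Continuous ps := continuous_pi ps_cont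
  have key : ∀ (x : Fin 5 → ℝ) (i j : Fin 5), i < j → (∀ m, m ≠ i → m ≠ j → x m = 0) →
      Φ x = cone (Γ i j) (x i, x j) ∧ ∑ m, x m = x i + x j := by
    intro x i j hij hx
    have two : ∀ {M : Type} [AddCommMonoid M] (f : Fin 5 → M), (∀ m, m ≠ i → m ≠ j → f m = 0) →
        ∑ m, f m = f i + f j := by
      intro M _ f hf
      exact Fintype.sum_eq_add i j hij.ne fun m hm => hf m hm.1 hm.2
    refine ⟨?_, two x hx⟩
    simp only [hΦ]
    have e1 : ∑ m, x m • A m = x i • A i + x j • A j :=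
      two (fun m => x m • A m) fun m a b => by simp [hx m a b]
    have e2 : ∀ a b : Fin 5, ¬ (a = i ∧ b = j) →
        (if a < b then cone (Γ a b) (x a, x b) - x a • A a - x b • A b else 0) = 0 := by
      intro a b hab
      split_ifs with h
      · by_cases ha : x a = 0
        · simp [ha, cone_right, h1 a b h]
        · have hb : x b = 0 := by
            by_contra hb
            have a1 : a = i ∨ a = j := by
              by_contra c; push Not at c; exact ha (hx a c.1 c.2)
            have b1 : b = i ∨ b = j := by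
              by_contra c; push Not at c; exact hb (hx b c.1 c.2)
            rcases a1 with rfl | rfl <;> rcases b1 with rfl | rfl
            · exact lt_irrefl _ h
            · exact hab ⟨rfl, rfl⟩
            · exact lt_asymm h hij
            · exact lt_irrefl _ h
          simp [hb, cone_left, h0 a b h]
      · rfl
    rw [e1, Finset.sum_eq_single i, Finset.sum_eq_single j, if_pos hij]
    · abel
    · intro b _ hb; exact e2 i b fun c => hb c.2
    · simp
    · intro a _ ha; exact Finset.sum_eq_zero fun b _ => e2 a b fun c => ha c.1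
    · simp
  obtain ⟨u, hu, hu0⟩ := Pool.Agent.Lib.helper9.BorsukUlam.borsuk_ulam
    (E := Fin 4 → ℝ) (F := ℝ × (ℝ × ℝ)) (Or.inr (by simp))
    (fun u => (DD (ps u) - DD (ps (-u)), Φ (ps u) - Φ (ps (-u))))
    ((((cD.comp cp).sub ((cD.comp cp).comp continuous_neg)).prodMk
      ((cΦ.comp cp).sub ((cΦ.comp cp).comp continuous_neg))).continuousOn)
    (by intro x _; simp)
  simp only [Prod.mk_eq_zero, sub_eq_zero] at hu0
  obtain ⟨f1, f2⟩ := hu0
  have nn : ∀ v i, 0 ≤ ps v i := fun v i => le_max_right _ _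
  have dis : ∀ i, decide (ps u i ≠ 0) = false ∨ decide (ps (-u) i ≠ 0) = false := by
    intro i; simpa using ps_dis u i
  have d1 := DD_iff _ (nn u)
  have d2 := DD_iff _ (nn (-u))
  have both : NoTri (fun i => decide (ps u i ≠ 0)) ∧ NoTri fun i => decide (ps (-u) i ≠ 0) := by
    rcases tri1 _ _ dis with h | h
    · exact ⟨h, d2.1 (f1 ▸ d1.2 h)⟩
    · exact ⟨d1.1 (f1.symm ▸ d2.2 h), h⟩
  obtain ⟨i, j, k, l, hh, ha, hb⟩ := tri2 _ _ dis both.1 both.2
  obtain ⟨e1, e2⟩ := key (ps u) i j hh.1 fun m a b => by simpa using ha m a b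
  obtain ⟨e3, e4⟩ := key (ps (-u)) k l hh.2.1 fun m a b => by simpa using hb m a b
  have tot : ∑ m, ps u m = ∑ m, ps (-u) m := by
    rw [← sub_eq_zero, ← Finset.sum_sub_distrib]
    simp only [ps_sub]
    simp [ext5, Fin.sum_univ_five]
  have hne : ∑ m, ps u m ≠ 0 := by
    intro h
    have z1 := (Finset.sum_eq_zero_iff_of_nonneg fun m _ => nn u m).1 h
    have z2 := (Finset.sum_eq_zero_iff_of_nonneg fun m _ => nn (-u) m).1 (tot ▸ h)
    have z : ∀ m, ext5 u m = 0 := fun m => by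
      rw [← ps_sub, z1 m (Finset.mem_univ _), z2 m (Finset.mem_univ _), sub_zero]
    have : u = 0 := by
      funext m
      fin_cases m
      · exact z 0
      · exact z 1
      · exact z 2
      · exact z 3
    simp [this] at hu
  rw [e1, e3] at f2
  simp only [cone] at f2
  rw [← e2, ← e4, ← tot] at f2
  exact ⟨i, j, k, l, _, _, hh, smul_right_injective _ hne f2⟩

/-- Linked branch sets: a walk of length at most three between the roots. -/
def Link {V : Type} (R : V → V → Prop) (lab : V → ℕ) (a b : V) : Prop :=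
  ∃ x y, lab x = lab a ∧ lab y = lab b ∧ R a x ∧ R x y ∧ R y b

def Has5 {V : Type} (R : V → V → Prop) : Prop :=
  ∃ (lab : V → ℕ) (r : Fin 5 → V), (∀ i, lab (r i) = i.val) ∧
    ∀ i j, i < j → Link R lab (r i) (r j)

def Has33 {V : Type} (R : V → V → Prop) : Prop :=
  ∃ (lab : V → ℕ) (a b : Fin 3 → V), (∀ i, lab (a i) = i.val) ∧ (∀ i, lab (b i) = 3 + i.val) ∧
    ∀ i j, Link R lab (a i) (b j)

theorem nodraw {V : Type} (R : V → V → Prop) (p : V → ℝ × ℝ)
    (g : V → V → unitInterval → ℝ × ℝ)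
    (h1 : ∀ u v, R u v → Continuous (g u v) ∧ g u v 0 = p u ∧ g u v 1 = p v)
    (dis : ∀ u v x y, R u v → R x y → u ≠ x → u ≠ y → v ≠ x → v ≠ y → ∀ s t, g u v s ≠ g x y t)
    (h : Has5 R ∨ Has33 R) : False := by
  have ex : ∀ (lab : V → ℕ) (a b : V), ∃ Γ : unitInterval → ℝ × ℝ, Link R lab a b →
      Continuous Γ ∧ Γ 0 = p a ∧ Γ 1 = p b ∧
      ∀ s, ∃ u v t, R u v ∧ Γ s = g u v t ∧ (lab u = lab a ∨ lab u = lab b) ∧
        (lab v = lab a ∨ lab v = lab b) := by
    intro lab a b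
    by_cases hl : Link R lab a b
    · obtain ⟨x, y, lx, ly, r1, r2, r3⟩ := hl
      obtain ⟨c1, a0, a1⟩ := h1 _ _ r1
      obtain ⟨c2, b0, b1⟩ := h1 _ _ r2
      obtain ⟨c3, d0, d1⟩ := h1 _ _ r3
      let P : Path (p a) (p x) := ⟨⟨_, c1⟩, a0, a1⟩
      let Q : Path (p x) (p y) := ⟨⟨_, c2⟩, b0, b1⟩
      let S : Path (p y) (p b) := ⟨⟨_, c3⟩, d0, d1⟩
      refine ⟨(P.trans Q).trans S, fun _ => ⟨((P.trans Q).trans S).continuous, by simp, by simp,
        fun s => ?_⟩⟩
      have : ((P.trans Q).trans S) s ∈ (range P ∪ range Q) ∪ range S := by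
        rw [← Path.trans_range, ← Path.trans_range]; exact ⟨s, rfl⟩
      rcases this with (⟨t, ht⟩ | ⟨t, ht⟩) | ⟨t, ht⟩
      · exact ⟨_, _, t, r1, ht.symm, Or.inl rfl, Or.inl lx⟩
      · exact ⟨_, _, t, r2, ht.symm, Or.inl lx, Or.inr ly⟩
      · exact ⟨_, _, t, r3, ht.symm, Or.inr ly, Or.inr rfl⟩
    · exact ⟨fun _ => 0, fun c => (hl c).elim⟩
  choose Γ hΓ using ex
  have fin : ∀ (lab : V → ℕ) (a b c d : V), Link R lab a b → Link R lab c d →
      lab a ≠ lab c → lab a ≠ lab d → lab b ≠ lab c → lab b ≠ lab d →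
      ∀ s t, Γ lab a b s ≠ Γ lab c d t := by
    intro lab a b c d l1 l2 n1 n2 n3 n4 s t e
    obtain ⟨u, v, s', huv, e1, hu, hv⟩ := (hΓ lab a b l1).2.2.2 s
    obtain ⟨x, y, t', hxy, e2, hx, hy⟩ := (hΓ lab c d l2).2.2.2 t
    refine dis u v x y huv hxy ?_ ?_ ?_ ?_ s' t' (by rw [← e1, ← e2, e]) <;>
    · rintro rfl
      omega
  rcases h with ⟨lab, r, hr, hl⟩ | ⟨lab, a, b, ha, hb, hl⟩
  · obtain ⟨i, j, k, l, s, t, hh, e⟩ := cross5 (fun i j => Γ lab (r i) (r j)) (fun i => p (r i))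
      (fun i j h => (hΓ lab _ _ (hl i j h)).1) (fun i j h => (hΓ lab _ _ (hl i j h)).2.1)
      (fun i j h => (hΓ lab _ _ (hl i j h)).2.2.1)
    obtain ⟨q1, q2, q3, q4, q5, q6⟩ := hh
    refine fin lab _ _ _ _ (hl i j q1) (hl k l q2) ?_ ?_ ?_ ?_ s t e <;> rw [hr, hr] <;>
      intro c
    exacts [q3 (Fin.ext c), q4 (Fin.ext c), q5 (Fin.ext c), q6 (Fin.ext c)]
  · obtain ⟨i, j, i', j', s, t, hi, hj, e⟩ := cross (fun i j => Γ lab (a i) (b j))
      (fun i => p (a i)) (fun i => p (b i))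
      (fun i j => (hΓ lab _ _ (hl i j)).1) (fun i j => (hΓ lab _ _ (hl i j)).2.1)
      (fun i j => (hΓ lab _ _ (hl i j)).2.2.1)
    have i1 := i.2
    have i2 := i'.2
    refine fin lab _ _ _ _ (hl i j) (hl i' j') ?_ ?_ ?_ ?_ s t e
    · rw [ha, ha]; exact fun c => hi (Fin.ext c)
    · rw [ha, hb]; omega
    · rw [ha, hb]; omega
    · rw [hb, hb]; exact fun c => hj (Fin.ext (by omega))

end Pool.Agent.H.MP_6f60ef_co
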