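import Mathlib
import Pool.Agent.H.MP_6f60ef_co.B

set_option autoImplicit false

namespace Pool.Agent.H.MP_6f60ef_co

open Set

def Good {V : Type} (G : SimpleGraph V) (c : V → V → Fin 2) (p : Fin 2 → V → ℂ)
    (γ : Fin 2 → V → V → ℝ → ℂ) : Prop :=
  (∀ u v : V, G.Adj u v → c u v = c v u) ∧
    (∀ i : Fin 2, Function.Injective (p i)) ∧
    (∀ i : Fin 2, ∀ u v : V, G.Adj u v → c u v = i →
      ContinuousOn (γ i u v) (Set.Icc (0:ℝ) 1) ∧
      Set.InjOn (γ i u v) (Set.Icc (0:ℝ) 1) ∧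
      γ i u v 0 = p i u ∧ γ i u v 1 = p i v ∧
      (∀ t : ℝ, 0 ≤ t → t ≤ 1 → γ i v u t = γ i u v (1 - t)) ∧
      ∀ t : ℝ, 0 < t → t < 1 → ∀ w : V, γ i u v t ≠ p i w)

def Cr {V : Type} (G : SimpleGraph V) (c : V → V → Fin 2) (γ : Fin 2 → V → V → ℝ → ℂ) :
    Set (Fin 2 × V × V × V × V × ℂ) :=
  {x | G.Adj x.2.1 x.2.2.1 ∧ G.Adj x.2.2.2.1 x.2.2.2.2.1 ∧
    c x.2.1 x.2.2.1 = x.1 ∧ c x.2.2.2.1 x.2.2.2.2.1 = x.1 ∧
    ¬ (x.2.1 = x.2.2.2.1 ∧ x.2.2.1 = x.2.2.2.2.1) ∧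
    ¬ (x.2.1 = x.2.2.2.2.1 ∧ x.2.2.1 = x.2.2.2.1) ∧
    (∃ t : ℝ, 0 < t ∧ t < 1 ∧ γ x.1 x.2.1 x.2.2.1 t = x.2.2.2.2.2) ∧
    (∃ t : ℝ, 0 < t ∧ t < 1 ∧ γ x.1 x.2.2.2.1 x.2.2.2.2.1 t = x.2.2.2.2.2)}

theorem nine {V : Type} (G : SimpleGraph V) (c : V → V → Fin 2) (p : Fin 2 → V → ℂ)
    (γ : Fin 2 → V → V → ℝ → ℂ) (hg : Good G c p γ) (hf : (Cr G c γ).Finite)
    (x y : Fin 2 × V × V × V × V × ℂ) (hx : x ∈ Cr G c γ) (hy : y ∈ Cr G c γ) (ne : x.1 ≠ y.1) :
    9 ≤ (Cr G c γ).ncard := by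
  obtain ⟨i, u, v, a, b, z⟩ := x
  have s1 : ∀ u v a b, (i, u, v, a, b, z) ∈ Cr G c γ → (i, v, u, a, b, z) ∈ Cr G c γ := by
    rintro u v a b ⟨h1, h2, h3, h4, h5, h6, ⟨t, t0, t1, ht⟩, h8⟩
    refine ⟨h1.symm, h2, (hg.1 _ _ h1).symm.trans h3, h4, fun q => h6 ⟨q.2, q.1⟩,
      fun q => h5 ⟨q.2, q.1⟩, ⟨1 - t, by linarith, by linarith, ?_⟩, h8⟩
    have := (hg.2.2 i u v h1 h3).2.2.2.2.1 (1 - t) (by linarith) (by linarith)
    rw [sub_sub_cancel] at this
    exact this.trans ht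
  have s2 : ∀ u v a b, (i, u, v, a, b, z) ∈ Cr G c γ → (i, a, b, u, v, z) ∈ Cr G c γ := by
    rintro u v a b ⟨h1, h2, h3, h4, h5, h6, h7, h8⟩
    exact ⟨h2, h1, h4, h3, fun q => h5 ⟨q.1.symm, q.2.symm⟩, fun q => h6 ⟨q.2.symm, q.1.symm⟩,
      h8, h7⟩
  let f : Fin 9 → Fin 2 × V × V × V × V × ℂ :=
    ![(i, u, v, a, b, z), (i, v, u, a, b, z), (i, u, v, b, a, z), (i, v, u, b, a, z),
      (i, a, b, u, v, z), (i, a, b, v, u, z), (i, b, a, u, v, z), (i, b, a, v, u, z), y]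
  have m : ∀ k, f k ∈ Cr G c γ := by
    intro k
    fin_cases k
    · exact hx
    · exact s1 _ _ _ _ hx
    · exact s2 _ _ _ _ (s1 _ _ _ _ (s2 _ _ _ _ hx))
    · exact s1 _ _ _ _ (s2 _ _ _ _ (s1 _ _ _ _ (s2 _ _ _ _ hx)))
    · exact s2 _ _ _ _ hx
    · exact s2 _ _ _ _ (s1 _ _ _ _ hx)
    · exact s1 _ _ _ _ (s2 _ _ _ _ hx)
    · exact s1 _ _ _ _ (s2 _ _ _ _ (s1 _ _ _ _ hx))
    · exact hy
  have inj : Function.Injective f := by
    obtain ⟨h1, h2, -, -, h5, h6, -, -⟩ := hx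
    have n1 : u ≠ v := h1.ne
    have n2 : a ≠ b := h2.ne
    obtain ⟨j, y⟩ := y
    have n3 : i ≠ j := ne
    change ¬ (u = a ∧ v = b) at h5
    change ¬ (u = b ∧ v = a) at h6
    intro k l h
    fin_cases k <;> fin_cases l <;> first | rfl | (exfalso; simp only [f] at h; simp at h; grind)
  have := Set.ncard_le_ncard (s := range f) (by rintro _ ⟨k, rfl⟩; exact m k) hf
  rwa [Set.ncard_range_of_injective inj, Nat.card_eq_fintype_card, Fintype.card_fin] at this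

theorem nonempty_cr (c : Fin 9 → Fin 9 → Fin 2) (p : Fin 2 → Fin 9 → ℂ)
    (γ : Fin 2 → Fin 9 → Fin 9 → ℝ → ℂ) (hg : Good ⊤ c p γ)
    (φ : SimpleGraph.fromRel (fun u v => (⊤ : SimpleGraph (Fin 9)).Adj u v ∧ c u v = 0) ≃g
      SimpleGraph.fromRel (fun u v => (⊤ : SimpleGraph (Fin 9)).Adj u v ∧ c u v = 1))
    (i : Fin 2) : ∃ x ∈ Cr ⊤ c γ, x.1 = i := by
  by_contra hno
  push Not at hno
  have sy : ∀ u v, u ≠ v → c u v = c v u := fun u v h => hg.1 u v h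
  have adj : ∀ (j : Fin 2) u v, u ≠ v →
      ((SimpleGraph.fromRel (fun u v => (⊤ : SimpleGraph (Fin 9)).Adj u v ∧ c u v = j)).Adj u v ↔
        c u v = j) := by
    intro j u v h
    simp [SimpleGraph.fromRel_adj, h, h.symm, sy v u h.symm]
  have anti : ∀ u v, u ≠ v → (c (φ u) (φ v) = 1 ↔ c u v = 0) := by
    intro u v h
    rw [← adj 1 _ _ (φ.injective.ne h), ← adj 0 _ _ h]
    exact φ.map_rel_iff
  have hk := selfc φ.toEquiv (fun u v => decide (c u v = i))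
    (fun u v h => by simp only [sy u v h]) (fun u v h => by
      have := anti u v h
      change decide (c (φ u) (φ v) = i) = !decide (c u v = i)
      generalize c (φ u) (φ v) = a at *
      generalize c u v = b at *
      exact (by decide : ∀ i a b : Fin 2, (a = 1 ↔ b = 0) → decide (a = i) = !decide (b = i))
        i a b this)
  let L := Complex.equivRealProdCLM
  let g : Fin 9 → Fin 9 → unitInterval → ℝ × ℝ := fun u v t =>
    if u = v then L (p i u) else L (γ i u v t)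
  have pt : ∀ u v, (u = v ∨ decide (c u v = i) = true) → ∀ s : unitInterval,
      g u v s = L (p i u) ∨ g u v s = L (p i v) ∨
        (u ≠ v ∧ c u v = i ∧ ∃ t : ℝ, 0 < t ∧ t < 1 ∧ g u v s = L (γ i u v t)) := by
    intro u v h s
    by_cases e : u = v
    · left; simp [g, e]
    · have hc : c u v = i := by simpa [e] using h
      obtain ⟨-, -, a0, a1, -⟩ := hg.2.2 i u v e hc
      rcases eq_or_lt_of_le s.2.1 with q | q
      · left; simp [g, e, ← q, a0]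
      · rcases eq_or_lt_of_le s.2.2 with q' | q'
        · right; left; simp [g, e, q', a1]
        · exact Or.inr (Or.inr ⟨e, hc, s, q, q', by simp [g, e]⟩)
  refine nodraw _ (fun u => L (p i u)) g ?_ ?_ hk
  · intro u v h
    by_cases e : u = v
    · subst e
      exact ⟨by simp only [g, if_true]; exact continuous_const, by simp [g], by simp [g]⟩
    · have hc : c u v = i := by simpa [e] using h
      obtain ⟨ct, -, a0, a1, -⟩ := hg.2.2 i u v e hc
      refine ⟨?_, by simp [g, e, a0], by simp [g, e, a1]⟩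
      simp only [g, if_neg e]
      exact L.continuous.comp ct.restrict
  · intro u v x y r1 r2 n1 n2 n3 n4 s t e
    have pi : ∀ a b, L (p i a) = L (p i b) → a = b := fun a b h => hg.2.1 i (L.injective h)
    rcases pt u v r1 s with a | a | ⟨a1, a2, s', a3, a4, a⟩ <;>
      rcases pt x y r2 t with b | b | ⟨b1, b2, t', b3, b4, b⟩ <;> rw [a, b] at e
    · exact n1 (pi _ _ e)
    · exact n2 (pi _ _ e)
    · exact (hg.2.2 i x y b1 b2).2.2.2.2.2 t' b3 b4 _ (L.injective e).symm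
    · exact n3 (pi _ _ e)
    · exact n4 (pi _ _ e)
    · exact (hg.2.2 i x y b1 b2).2.2.2.2.2 t' b3 b4 _ (L.injective e).symm
    · exact (hg.2.2 i u v a1 a2).2.2.2.2.2 s' a3 a4 _ (L.injective e)
    · exact (hg.2.2 i u v a1 a2).2.2.2.2.2 s' a3 a4 _ (L.injective e)
    · exact hno (i, u, v, x, y, γ i u v s') ⟨a1, b1, a2, b2, fun q => n1 q.1, fun q => n2 q.1,
        ⟨s', a3, a4, rfl⟩, ⟨t', b3, b4, (L.injective e).symm⟩⟩ rfl

def c0 (u v : Fin 9) : Fin 2 :=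
  if Nat.testBit 1154900686221189237019154 (9 * u.val + v.val) then 1 else 0

def px : Fin 2 → Fin 9 → ℤ :=
  ![![28, 17, 33, 21, 21, 7, 36, 33, 11], ![20, 31, 13, 26, 11, 8, 30, 13, 5]]

def py : Fin 2 → Fin 9 → ℤ :=
  ![![34, 14, 3, 16, 4, 36, 2, 39, 34], ![32, 26, 15, 24, 36, 6, 3, 21, 2]]

def ori (i : Fin 2) (a b d : Fin 9) : ℤ :=
  (px i b - px i a) * (py i d - py i a) - (py i b - py i a) * (px i d - px i a)

def p0 (i : Fin 2) (u : Fin 9) : ℂ := ⟨px i u, py i u⟩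

noncomputable def g0 (i : Fin 2) (u v : Fin 9) (t : ℝ) : ℂ :=
  ⟨(1 - t) * px i u + t * px i v, (1 - t) * py i u + t * py i v⟩

def XX (i : Fin 2) (a b d e : Fin 9) : Prop :=
  (ori i a b d = 0 ∧ ori i a b e = 0) ∨ ori i a b d * ori i a b e < 0

instance (i : Fin 2) (a b d e : Fin 9) : Decidable (XX i a b d e) := by unfold XX; infer_instance

def L8 : Finset (Fin 2 × Fin 9 × Fin 9 × Fin 9 × Fin 9) :=
  {(0, 1, 2, 3, 4), (0, 1, 2, 4, 3), (0, 2, 1, 3, 4), (0, 2, 1, 4, 3),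
    (0, 3, 4, 1, 2), (0, 3, 4, 2, 1), (0, 4, 3, 1, 2), (0, 4, 3, 2, 1)}

theorem d1 : ∀ u v, c0 u v = c0 v u := by decide +kernel

theorem d2 : ∀ i u v, px i u = px i v → py i u = py i v → u = v := by decide +kernel

theorem d3 : ∀ i u v w, u ≠ v → ori i u v w = 0 → w = u ∨ w = v := by decide +kernel

theorem d4 : ∀ i a b, a ≠ b → c0 a b = i → ∀ d e, d ≠ e → c0 d e = i → ¬ (a = d ∧ b = e) →
    ¬ (a = e ∧ b = d) → XX i a b d e → XX i d e a b →
    (i, a, b, d, e) ∈ L8 ∧ ori i d e a ≠ ori i d e b := by decide +kernel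

theorem d5 : L8.card = 8 := by decide +kernel

theorem lin (i : Fin 2) (a b d e : Fin 9) (s t : ℝ) (h : g0 i a b s = g0 i d e t) :
    (1 - t) * ori i a b d + t * ori i a b e = 0 := by
  have h1 := congrArg Complex.re h
  have h2 := congrArg Complex.im h
  simp only [g0] at h1 h2
  simp only [ori]
  push_cast
  linear_combination (-((px i b : ℝ) - px i a)) * h2 + ((py i b : ℝ) - py i a) * h1

theorem xx_of (i : Fin 2) (a b d e : Fin 9) (t : ℝ) (t0 : 0 < t) (t1 : t < 1)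
    (h : (1 - t) * ori i a b d + t * ori i a b e = 0) : XX i a b d e := by
  unfold XX
  generalize ori i a b d = m at *
  generalize ori i a b e = n at *
  have u0 : 0 < 1 - t := by linarith
  rcases lt_trichotomy m 0 with q | q | q
  · right
    have q' : (m : ℝ) < 0 := by exact_mod_cast q
    have : (0 : ℝ) < n := by
      by_contra c; push Not at c; nlinarith
    exact mul_neg_of_neg_of_pos q (by exact_mod_cast this)
  · left
    subst q
    simpa [t0.ne'] using h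
  · right
    have q' : (0 : ℝ) < m := by exact_mod_cast q
    have : (n : ℝ) < 0 := by
      by_contra c; push Not at c; nlinarith
    exact mul_neg_of_pos_of_neg q (by exact_mod_cast this)

theorem good0 : Good ⊤ c0 p0 g0 := by
  have pinj : ∀ i, Function.Injective (p0 i) := by
    intro i u v h
    have h1 := congrArg Complex.re h
    have h2 := congrArg Complex.im h
    simp only [p0] at h1 h2
    exact d2 i u v (by exact_mod_cast h1) (by exact_mod_cast h2)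
  have inj : ∀ i u v, u ≠ v → Function.Injective (g0 i u v) := by
    intro i u v h s t e
    have h1 := congrArg Complex.re e
    have h2 := congrArg Complex.im e
    simp only [g0] at h1 h2
    by_contra ne
    have q : s - t ≠ 0 := sub_ne_zero.2 ne
    have a1 : (px i u : ℝ) = px i v := by
      apply mul_left_cancel₀ q; linear_combination -h1
    have a2 : (py i u : ℝ) = py i v := by
      apply mul_left_cancel₀ q; linear_combination -h2
    exact h (d2 i u v (by exact_mod_cast a1) (by exact_mod_cast a2))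
  have e0 : ∀ i u v, g0 i u v 0 = p0 i u := by intro i u v; simp [g0, p0]
  have e1 : ∀ i u v, g0 i u v 1 = p0 i v := by intro i u v; simp [g0, p0]
  refine ⟨fun u v _ => d1 u v, pinj, fun i u v h _ => ⟨?_, (inj i u v h).injOn, e0 _ _ _,
    e1 _ _ _, ?_, ?_⟩⟩
  · apply Continuous.continuousOn
    have : g0 i u v = fun t : ℝ => Complex.equivRealProdCLM.symm
        ((1 - t) * px i u + t * px i v, (1 - t) * py i u + t * py i v) := by
      funext t; apply Complex.ext <;> simp [g0]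
    rw [this]
    fun_prop
  · intro t _ _
    apply Complex.ext <;> simp only [g0] <;> ring
  · intro t t0 t1 w e
    have := lin i u v w w t 0 (by rw [e, e0])
    have z : ori i u v w = 0 := by simpa using this
    rcases d3 i u v w h z with rfl | rfl
    · exact t0.ne' (inj i _ _ h (e.trans (e0 _ _ _).symm))
    · exact t1.ne (inj i _ _ h (e.trans (e1 _ _ _).symm))

theorem cr0 : (Cr ⊤ c0 g0).Finite ∧ (Cr ⊤ c0 g0).ncard ≤ 8 := by
  let f : Fin 2 × Fin 9 × Fin 9 × Fin 9 × Fin 9 × ℂ → Fin 2 × Fin 9 × Fin 9 × Fin 9 × Fin 9 :=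
    fun x => (x.1, x.2.1, x.2.2.1, x.2.2.2.1, x.2.2.2.2.1)
  have key : ∀ x ∈ Cr ⊤ c0 g0, f x ∈ L8 ∧
      ori x.1 x.2.2.2.1 x.2.2.2.2.1 x.2.1 ≠ ori x.1 x.2.2.2.1 x.2.2.2.2.1 x.2.2.1 := by
    rintro ⟨i, a, b, d, e, z⟩ ⟨h1, h2, h3, h4, h5, h6, ⟨s, s0, s1, hs⟩, ⟨t, t0, t1, ht⟩⟩
    exact d4 i a b h1 h3 d e h2 h4 h5 h6
      (xx_of _ _ _ _ _ t t0 t1 (lin _ _ _ _ _ s t (hs.trans ht.symm)))
      (xx_of _ _ _ _ _ s s0 s1 (lin _ _ _ _ _ t s (ht.trans hs.symm)))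
  have inj : Set.InjOn f (Cr ⊤ c0 g0) := by
    rintro ⟨i, a, b, d, e, z⟩ hx ⟨i', a', b', d', e', z'⟩ hy h
    simp only [f, Prod.mk.injEq] at h
    obtain ⟨rfl, rfl, rfl, rfl, rfl⟩ := h
    have ne : (ori i d e a : ℝ) - ori i d e b ≠ 0 :=
      sub_ne_zero.2 (by exact_mod_cast (key _ hx).2)
    obtain ⟨-, -, -, -, -, -, ⟨s, -, -, hs⟩, ⟨t, -, -, ht⟩⟩ := hx
    obtain ⟨-, -, -, -, -, -, ⟨s', -, -, hs'⟩, ⟨t', -, -, ht'⟩⟩ := hy
    have l1 := lin _ _ _ _ _ t s (ht.trans hs.symm)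
    have l2 := lin _ _ _ _ _ t' s' (ht'.trans hs'.symm)
    have : s = s' := by
      apply mul_left_cancel₀ ne
      linear_combination l2 - l1
    subst this
    have : z = z' := hs.symm.trans hs'
    rw [this]
  have mp : Set.MapsTo f (Cr ⊤ c0 g0) (L8 : Set _) := fun x hx => (key x hx).1
  refine ⟨Set.Finite.of_injOn mp inj L8.finite_toSet, ?_⟩
  have := Set.ncard_le_ncard_of_injOn f mp inj L8.finite_toSet
  rwa [Set.ncard_coe_finset, d5] at this

theorem main : ¬ ∀ (V : Type) [Finite V] (G : SimpleGraph V),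
      (G = ⊤ ∨ ∃ a b : ℕ, Nonempty (G ≃g completeBipartiteGraph (Fin a) (Fin b))) →
      Even (Set.ncard G.edgeSet) →
      ∃ (c : V → V → Fin 2) (p : Fin 2 → V → ℂ) (γ : Fin 2 → V → V → ℝ → ℂ),
        ((Good G c p γ) ∧ (Cr G c γ).Finite) ∧
        Nonempty (SimpleGraph.fromRel (fun u v => G.Adj u v ∧ c u v = 0) ≃g
          SimpleGraph.fromRel (fun u v => G.Adj u v ∧ c u v = 1)) ∧
        ∀ (c' : V → V → Fin 2) (p' : Fin 2 → V → ℂ) (γ' : Fin 2 → V → V → ℝ → ℂ),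
          (Good G c' p' γ' ∧ (Cr G c' γ').Finite) → (Cr G c γ).ncard ≤ (Cr G c' γ').ncard := by
  intro h
  obtain ⟨c, p, γ, ⟨hg, hf⟩, ⟨φ⟩, hm⟩ := h (Fin 9) ⊤ (Or.inl rfl) (by
    rw [← SimpleGraph.coe_edgeFinset, Set.ncard_coe_finset,
      SimpleGraph.card_edgeFinset_top_eq_card_choose_two]
    decide)
  have h8 := (hm c0 p0 g0 ⟨good0, cr0.1⟩).trans cr0.2
  obtain ⟨x, hx, x0⟩ := nonempty_cr c p γ hg φ 0
  obtain ⟨y, hy, y0⟩ := nonempty_cr c p γ hg φ 1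
  have := nine ⊤ c p γ hg hf x y hx hy (by rw [x0, y0]; decide)
  omega

end Pool.Agent.H.MP_6f60ef_co
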